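import Pool.Agent.Helper73.OB.GoalsB

/-!
Packet BACK of project OB: the old letters in terms of the new ones.
-/

open MeasureTheory
open Pool.Agent.Helper73.OB

namespace Pool.Agent.Helper3.OB

section

variable {S : Type} {βZ βD : S → S} {p : Bit → S} {X : Type} [MeasurableSpace X] {μ : Measure X}
  {f g : S → X → X} {s : X → Sk} {K K' : Bit → Bit → X → List S} {G : Set X}

theorem run_mem (hE : Exch βZ βD p μ f g s K K' G) (w : List S) {x : X} (hx : x ∈ G) :
    run f w x ∈ G := by
  induction w generalizing x with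
  | nil => exact hx
  | cons a w ih => rw [run_cons]; exact ih (hE.G_f a x hx)

theorem back_f (hE : Exch βZ βD p μ f g s K K' G) {x : X} (hx : x ∈ G) (z c : Bit)
    (hc : c = (s x).2.1 0 z) (y : X) (hy : y = g (p c) (run f (K z c x) x)) :
    f (p z) x = run f (K' (z + 1) c y) y := by
  have hinv := hE.sysZ.inv
  obtain ⟨h1, h2⟩ := hE.th z c x hx hc.symm
  have hx' : run f (K z c x) x ∈ G := run_mem hE _ hx
  have h3 : run f (K' z c (run f (K z c x) x)) (run f (K z c x) x) = x := by
    rw [h2]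
    exact run_invw hinv _ _
  have h4 := hE.g_P c (run f (K z c x) x) hx' z h1.symm (f (p z) x) (by rw [h3])
  have h5 : (s (f (p z) x)).2.1 0 (z + 1) = c := by rw [hE.edge x hx z, hc]
  obtain ⟨_, h6⟩ := hE.th (z + 1) c (f (p z) x) (hE.G_f _ _ hx) h5
  rw [hy, h4, h6]
  exact (run_invw hinv _ _).symm

theorem back_H (hE : Exch βZ βD p μ f g s K K' G) (x : X) (h : List S) (hh : IsH p h) :
    run g h x = run f h x := by
  induction h generalizing x with
  | nil => rfl
  | cons a w ih =>
    rw [run_cons, run_cons, hE.g_H a (hh a (by simp))]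
    exact ih _ fun b hb => hh b (by simp [hb])

theorem back_near (hE : Exch βZ βD p μ f g s K K' G) {x : X} (hx : x ∈ G)
    (hM : (s x).1 = false) (hN : ∀ z, (s (f (p z) x)).1 = false) (c : Bit) :
    g (p c) x = f (p ((s x).2.1 1 c)) x := by
  have h1 := hE.g_P c x hx ((s x).2.1 1 c) rfl (f (p ((s x).2.1 1 c)) x)
    (by rw [hE.K'_nil _ _ _ hM, run_nil])
  rw [h1, hE.K_nil _ _ _ (hN _), run_nil]

end

theorem back : Pool.Agent.Helper73.OB.S_BACK := by
  intro S _ βZ βD p X _ μ _ f g s K K' G hE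
  refine ⟨fun x hx z c hc y hy => back_f hE hx z c hc y hy, fun x h hh => back_H hE x h hh,
    fun x hx hM hN c => back_near hE hx hM hN c, ?_, ?_⟩
  · intro x hx a
    by_cases ha : a ∈ Set.range p
    · obtain ⟨z, rfl⟩ := ha
      constructor
      · refine ⟨K' ((s x).2.1 1 z) z x ++ p ((s x).2.1 1 z) ::
          K ((s x).2.1 1 z + 1) z (f (p ((s x).2.1 1 z)) (run f (K' ((s x).2.1 1 z) z x) x)), ?_⟩
        rw [run_append, run_cons]
        exact (hE.g_P z x hx _ rfl _ rfl).symm
      · refine ⟨K z ((s x).2.1 0 z) x ++ p ((s x).2.1 0 z) ::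
          K' (z + 1) ((s x).2.1 0 z) (g (p ((s x).2.1 0 z)) (run f (K z ((s x).2.1 0 z) x) x)), ?_⟩
        rw [run_append, run_cons, back_H hE _ _ (hE.K_H z _ x).2,
          back_H hE _ _ (hE.K'_H (z + 1) _ _).2]
        exact (back_f hE hx z _ rfl _ rfl).symm
    · exact ⟨⟨[a], by rw [run_cons, run_nil, hE.g_H a ha]⟩,
        ⟨[a], by rw [run_cons, run_nil, hE.g_H a ha]⟩⟩
  · intro x hx hM hN
    apply Set.Subset.antisymm
    · rintro _ ⟨a, rfl⟩
      by_cases ha : a ∈ Set.range p
      · obtain ⟨c, rfl⟩ := ha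
        exact ⟨p ((s x).2.1 1 c), (back_near hE hx hM (fun z => hN (p z)) c).symm⟩
      · exact ⟨a, by simp only [hE.g_H a ha]⟩
    · rintro _ ⟨a, rfl⟩
      by_cases ha : a ∈ Set.range p
      · obtain ⟨z, rfl⟩ := ha
        refine ⟨p (z - (s x).2.1 0 0), ?_⟩
        have h1 := back_near hE hx hM (fun z => hN (p z)) (z - (s x).2.1 0 0)
        have h2 : (s x).2.1 1 (z - (s x).2.1 0 0) = z := by
          rw [hE.bits x hx hM 1]
          ring
        rw [h2] at h1
        exact h1
      · exact ⟨a, by simp only [hE.g_H a ha]⟩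

end Pool.Agent.Helper3.OB
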